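import Mathlib

/-!
# Residues modulo 4 of consecutive twin prime pairs: the four limits and equidistribution

Assume that there are infinitely many twin prime pairs.  The conditional frequencies
`δ₂(x;4;a|b)` determine the frequencies of the two residues, exactly as the transition
probabilities of a two-state Markov chain determine its stationary distribution. For the limits
`1/2`: the assertion of the question is equivalent to the equidistribution of the twin prime pairs
modulo 4 together with one of its four limits, and to the equidistribution together with the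
statement that half of the pairs have a residue modulo 4 different from that of the next pair.
-/

set_option autoImplicit false

open Filter Topology Finset

namespace Pool.Agent.Results.MP_74f661_nt.ConditionalFrequencies

/-- `p` is the first member of a twin prime pair. -/
def Twin (p : ℕ) : Prop := p.Prime ∧ (p + 2).Prime

/-- The first member of the `n`-th twin prime pair, counted from `n = 0` (so `tw 0 = 3`, `tw 1 = 5`,
`tw 2 = 11`, ...), if there are infinitely many of them. -/
noncomputable def tw (n : ℕ) : ℕ := Nat.nth Twin n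

/-- The number of the twin prime pairs with first member `≤ x`. -/
noncomputable def num (x : ℝ) : ℝ := ({n : ℕ | (tw n : ℝ) ≤ x}.ncard : ℝ)

/-- `π₂(x;4;a)`: the number of the `n` with `tw n ≤ x` and `tw n ≡ a (mod 4)`. -/
noncomputable def pi₂ (a : ℕ) (x : ℝ) : ℝ := ({n : ℕ | (tw n : ℝ) ≤ x ∧ tw n % 4 = a}.ncard : ℝ)

/-- `π₂(x;4;a|b)`: the number of the `n` with `tw n ≤ x`, `tw n ≡ a` and `tw (n + 1) ≡ b (mod 4)`. -/
noncomputable def pi₂' (a b : ℕ) (x : ℝ) : ℝ :=
  ({n : ℕ | (tw n : ℝ) ≤ x ∧ tw n % 4 = a ∧ tw (n + 1) % 4 = b}.ncard : ℝ)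

/-- `δ₂(x;4;a|b)`. -/
noncomputable def delta (a b : ℕ) (x : ℝ) : ℝ := pi₂' a b x / pi₂ a x

/-- The number of the `n` with `tw n ≤ x` and `tw (n + 1) ≢ tw n (mod 4)`. -/
noncomputable def changes (x : ℝ) : ℝ :=
  ({n : ℕ | (tw n : ℝ) ≤ x ∧ tw (n + 1) % 4 ≠ tw n % 4}.ncard : ℝ)

lemma transitions (r : ℕ → ℕ) (h : ∀ n, r n = 1 ∨ r n = 3) (K : ℕ) :
    (((range K).filter (fun n => r n = 1 ∧ r (n + 1) = 3)).card : ℤ) -
      ((range K).filter (fun n => r n = 3 ∧ r (n + 1) = 1)).card =
      (if r 0 = 1 then 1 else 0) - (if r K = 1 then 1 else 0) := by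
  induction K with
  | zero => simp
  | succ K ih =>
    rw [Finset.range_add_one, Finset.filter_insert, Finset.filter_insert]
    rcases h K with h1 | h1 <;> rcases h (K + 1) with h2 | h2 <;>
      simp only [h1, h2] at ih ⊢ <;> simp <;> simp at ih <;> omega

lemma twin_mod {p : ℕ} (hp : Twin p) : p % 4 = 1 ∨ p % 4 = 3 := by
  have h2 : p ≠ 2 := by
    rintro rfl
    have := hp.2
    norm_num at this
  have := hp.1.eq_two_or_odd
  omega

variable (hinf : {p | Twin p}.Infinite)

include hinf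

lemma tw_mono : StrictMono tw := Nat.nth_strictMono hinf

lemma tw_mod (n : ℕ) : tw n % 4 = 1 ∨ tw n % 4 = 3 := twin_mod (Nat.nth_mem_of_infinite hinf n)

lemma index (x : ℝ) : ∃ K : ℕ, ∀ n : ℕ, (tw n : ℝ) ≤ x ↔ n < K := by
  have hm := tw_mono hinf
  obtain ⟨M, hM⟩ := exists_nat_gt x
  have hne : {K : ℕ | ¬ ((tw K : ℝ) ≤ x)}.Nonempty := ⟨M, by
    have h1 : M ≤ tw M := hm.le_apply
    have h2 : (M : ℝ) ≤ tw M := by exact_mod_cast h1
    exact not_le.mpr (by linarith)⟩
  refine ⟨sInf {K : ℕ | ¬ ((tw K : ℝ) ≤ x)}, fun n => ⟨fun h => ?_, fun h => ?_⟩⟩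
  · by_contra hc
    apply Nat.sInf_mem hne
    have h1 : tw (sInf {K : ℕ | ¬ ((tw K : ℝ) ≤ x)}) ≤ tw n := hm.monotone (not_lt.mp hc)
    have h2 : (tw (sInf {K : ℕ | ¬ ((tw K : ℝ) ≤ x)}) : ℝ) ≤ tw n := by exact_mod_cast h1
    linarith
  · by_contra hc
    have h3 := Nat.sInf_le (s := {K : ℕ | ¬ ((tw K : ℝ) ≤ x)}) hc
    omega

lemma ncard_eq (x : ℝ) : ∃ K : ℕ, (∀ n : ℕ, (tw n : ℝ) ≤ x ↔ n < K) ∧
    ∀ (φ : ℕ → Prop) [DecidablePred φ],
      {n : ℕ | (tw n : ℝ) ≤ x ∧ φ n}.ncard = ((range K).filter φ).card := by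
  obtain ⟨K, hK⟩ := index hinf x
  refine ⟨K, hK, fun φ _ => ?_⟩
  rw [← Set.ncard_coe_finset]
  congr 1
  ext n
  simp [hK n]

/-- The four relations between the counting functions. -/
lemma relations (x : ℝ) :
    pi₂ 1 x + pi₂ 3 x = num x ∧ (pi₂' 1 1 x + pi₂' 1 3 x = pi₂ 1 x) ∧
    (pi₂' 3 1 x + pi₂' 3 3 x = pi₂ 3 x) ∧ |pi₂' 1 3 x - pi₂' 3 1 x| ≤ 1 ∧
    pi₂' 1 3 x + pi₂' 3 1 x = changes x := by
  classical
  obtain ⟨K, hK, hφ⟩ := ncard_eq hinf x
  have hmod := tw_mod hinf
  have hnum : num x = ((range K).card : ℝ) := by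
    unfold num
    have := hφ (fun _ => True)
    simp only [and_true, Finset.filter_true] at this
    rw [this]
  have hsplit : ∀ (A B C : ℕ → Prop) [DecidablePred A] [DecidablePred B] [DecidablePred C],
      (∀ n, A n ↔ (B n ∨ C n)) → (∀ n, ¬ (B n ∧ C n)) →
      ((range K).filter B).card + ((range K).filter C).card = ((range K).filter A).card := by
    intro A B C _ _ _ h1 h2
    rw [← Finset.card_union_of_disjoint]
    · congr 1
      ext n
      simp only [Finset.mem_union, Finset.mem_filter, h1 n]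
      tauto
    · rw [Finset.disjoint_filter]
      intro n _ hb hc
      exact h2 n ⟨hb, hc⟩
  refine ⟨?_, ?_, ?_, ?_, ?_⟩
  · rw [hnum]
    unfold pi₂
    rw [hφ, hφ]
    have := hsplit (fun _ => True) (fun n => tw n % 4 = 1) (fun n => tw n % 4 = 3)
      (fun n => by simpa using hmod n) (fun n h => by omega)
    rw [Finset.filter_true] at this
    exact_mod_cast this
  · unfold pi₂ pi₂'
    rw [hφ, hφ, hφ]
    exact_mod_cast hsplit (fun n => tw n % 4 = 1) (fun n => tw n % 4 = 1 ∧ tw (n + 1) % 4 = 1)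
      (fun n => tw n % 4 = 1 ∧ tw (n + 1) % 4 = 3)
      (fun n => by have := hmod (n + 1); tauto) (fun n h => by omega)
  · unfold pi₂ pi₂'
    rw [hφ, hφ, hφ]
    exact_mod_cast hsplit (fun n => tw n % 4 = 3) (fun n => tw n % 4 = 3 ∧ tw (n + 1) % 4 = 1)
      (fun n => tw n % 4 = 3 ∧ tw (n + 1) % 4 = 3)
      (fun n => by have := hmod (n + 1); tauto) (fun n h => by omega)
  · unfold pi₂'
    rw [hφ, hφ]
    have h := transitions (fun n => tw n % 4) hmod K
    have h2 : |(((range K).filter (fun n => tw n % 4 = 1 ∧ tw (n + 1) % 4 = 3)).card : ℤ) -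
      ((range K).filter (fun n => tw n % 4 = 3 ∧ tw (n + 1) % 4 = 1)).card| ≤ 1 := by
      rw [h]
      split_ifs <;> simp
    exact_mod_cast h2
  · unfold changes pi₂'
    rw [hφ, hφ, hφ]
    exact_mod_cast hsplit (fun n => tw (n + 1) % 4 ≠ tw n % 4)
      (fun n => tw n % 4 = 1 ∧ tw (n + 1) % 4 = 3) (fun n => tw n % 4 = 3 ∧ tw (n + 1) % 4 = 1)
      (fun n => by have := hmod n; have := hmod (n + 1); omega) (fun n h => by omega)

lemma num_tendsto : Tendsto num atTop atTop := by
  rw [tendsto_atTop]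
  intro b
  obtain ⟨M, hM⟩ := exists_nat_gt b
  filter_upwards [eventually_ge_atTop (tw M : ℝ)] with x hx
  obtain ⟨K, hK⟩ := index hinf x
  have h1 : M < K := (hK M).1 hx
  have h2 : {n : ℕ | (tw n : ℝ) ≤ x} = ↑(range K) := by
    ext n; simp [hK n]
  unfold num
  rw [h2, Set.ncard_coe_finset, Finset.card_range]
  have : (M : ℝ) ≤ K := by exact_mod_cast h1.le
  linarith

/-- `δ₂(x;4;1|3) → l` and `δ₂(x;4;3|1) → m` determine the frequencies of the residues. -/
lemma stationary {l m : ℝ} (hlm : 0 < l + m) (h1 : Tendsto (delta 1 3) atTop (𝓝 l))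
    (h3 : Tendsto (delta 3 1) atTop (𝓝 m)) :
    Tendsto (fun x => pi₂ 1 x / num x) atTop (𝓝 (m / (l + m))) := by
  have hrel := relations hinf
  have hN := num_tendsto hinf
  have hpos : ∀ᶠ x in atTop, 0 < num x := hN.eventually_gt_atTop 0
  have hmul : ∀ a b : ℕ, ∀ x, pi₂' a b x ≤ pi₂ a x → 0 ≤ pi₂' a b x →
      delta a b x * pi₂ a x = pi₂' a b x := by
    intro a b x hle h0
    unfold delta
    by_cases hz : pi₂ a x = 0
    · rw [hz] at hle ⊢
      rw [mul_zero]
      linarith
    · exact div_mul_cancel₀ _ hz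
  have hnn : ∀ a b x, 0 ≤ pi₂' a b x := fun a b x => Nat.cast_nonneg _
  -- `|δ13 P1 - δ31 P3| ≤ 1`
  have hE : Tendsto (fun x => (delta 1 3 x + delta 3 1 x) * (pi₂ 1 x / num x) - delta 3 1 x)
      atTop (𝓝 0) := by
    have hz : Tendsto (fun x => (num x)⁻¹) atTop (𝓝 0) := tendsto_inv_atTop_zero.comp hN
    refine squeeze_zero_norm' ?_ hz
    filter_upwards [hpos] with x hx
    obtain ⟨r1, r2, r3, r4, -⟩ := hrel x
    have e1 := hmul 1 3 x (by linarith [hnn 1 1 x]) (hnn _ _ _)
    have e3 := hmul 3 1 x (by linarith [hnn 3 3 x]) (hnn _ _ _)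
    have e : (delta 1 3 x + delta 3 1 x) * (pi₂ 1 x / num x) - delta 3 1 x =
        (pi₂' 1 3 x - pi₂' 3 1 x) / num x := by
      rw [← e1, ← e3]
      field_simp
      rw [← r1]
      ring
    rw [e, Real.norm_eq_abs, abs_div, abs_of_pos hx, ← one_div]
    exact div_le_div_of_nonneg_right r4 hx.le
  have h4 : Tendsto (fun x => delta 1 3 x + delta 3 1 x) atTop (𝓝 (l + m)) := h1.add h3
  have h5 : Tendsto (fun x => (((delta 1 3 x + delta 3 1 x) * (pi₂ 1 x / num x) - delta 3 1 x) +
      delta 3 1 x) / (delta 1 3 x + delta 3 1 x)) atTop (𝓝 ((0 + m) / (l + m))) :=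
    (hE.add h3).div h4 hlm.ne'
  rw [zero_add] at h5
  refine h5.congr' ?_
  filter_upwards [h4.eventually_const_lt hlm] with x hx
  rw [sub_add_cancel, mul_comm]
  exact mul_div_cancel_right₀ _ (ne_of_gt hx)

/-- If the frequency of the residue `1` has a limit strictly between `0` and `1`, then each of the
four conditional frequencies determines the others. -/
lemma converse {r : ℝ} (hr0 : 0 < r) (hr1 : r < 1)
    (hP : Tendsto (fun x => pi₂ 1 x / num x) atTop (𝓝 r)) {c : ℝ}
    (hC : Tendsto (fun x => changes x / num x) atTop (𝓝 c)) :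
    Tendsto (delta 1 3) atTop (𝓝 (c / 2 / r)) ∧ Tendsto (delta 1 1) atTop (𝓝 (1 - c / 2 / r)) ∧
    Tendsto (delta 3 1) atTop (𝓝 (c / 2 / (1 - r))) ∧
    Tendsto (delta 3 3) atTop (𝓝 (1 - c / 2 / (1 - r))) := by
  have hrel := relations hinf
  have hN := num_tendsto hinf
  have hpos : ∀ᶠ x in atTop, 0 < num x := hN.eventually_gt_atTop 0
  have hz : Tendsto (fun x => (num x)⁻¹) atTop (𝓝 0) := tendsto_inv_atTop_zero.comp hN
  have hD : Tendsto (fun x => (pi₂' 1 3 x - pi₂' 3 1 x) / num x) atTop (𝓝 0) := by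
    refine squeeze_zero_norm' ?_ hz
    filter_upwards [hpos] with x hx
    obtain ⟨-, -, -, r4, -⟩ := hrel x
    rw [Real.norm_eq_abs, abs_div, abs_of_pos hx, ← one_div]
    exact div_le_div_of_nonneg_right r4 hx.le
  have h13 : Tendsto (fun x => pi₂' 1 3 x / num x) atTop (𝓝 (c / 2)) := by
    have := (hC.add hD).div_const 2
    rw [add_zero] at this
    refine this.congr fun x => ?_
    obtain ⟨-, -, -, -, r5⟩ := hrel x
    rw [← r5]; ring
  have h31 : Tendsto (fun x => pi₂' 3 1 x / num x) atTop (𝓝 (c / 2)) := by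
    have := (hC.sub hD).div_const 2
    rw [sub_zero] at this
    refine this.congr fun x => ?_
    obtain ⟨-, -, -, -, r5⟩ := hrel x
    rw [← r5]; ring
  have hP3 : Tendsto (fun x => pi₂ 3 x / num x) atTop (𝓝 (1 - r)) := by
    refine (tendsto_const_nhds.sub hP).congr' ?_
    filter_upwards [hpos] with x hx
    obtain ⟨r1, -⟩ := hrel x
    field_simp
    linarith
  have h1r : (0 : ℝ) < 1 - r := by linarith
  have g1 : ∀ᶠ x in atTop, 0 < pi₂ 1 x := by
    filter_upwards [hP.eventually_const_lt hr0, hpos] with x hx hx2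
    exact (div_pos_iff_of_pos_right hx2).1 hx
  have g3 : ∀ᶠ x in atTop, 0 < pi₂ 3 x := by
    filter_upwards [hP3.eventually_const_lt h1r, hpos] with x hx hx2
    exact (div_pos_iff_of_pos_right hx2).1 hx
  have d13 : Tendsto (delta 1 3) atTop (𝓝 (c / 2 / r)) := by
    refine (h13.div hP hr0.ne').congr' ?_
    filter_upwards [hpos, g1] with x hx hx1
    change (pi₂' 1 3 x / num x) / (pi₂ 1 x / num x) = pi₂' 1 3 x / pi₂ 1 x
    field_simp
  have d31 : Tendsto (delta 3 1) atTop (𝓝 (c / 2 / (1 - r))) := by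
    refine (h31.div hP3 h1r.ne').congr' ?_
    filter_upwards [hpos, g3] with x hx hx1
    change (pi₂' 3 1 x / num x) / (pi₂ 3 x / num x) = pi₂' 3 1 x / pi₂ 3 x
    field_simp
  refine ⟨d13, ?_, d31, ?_⟩
  · refine (tendsto_const_nhds.sub d13).congr' ?_
    filter_upwards [g1] with x hx
    obtain ⟨-, r2, -⟩ := hrel x
    unfold delta
    field_simp
    linarith
  · refine (tendsto_const_nhds.sub d31).congr' ?_
    filter_upwards [g3] with x hx
    obtain ⟨-, -, r3, -⟩ := hrel x
    unfold delta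
    field_simp
    linarith

/-- The sum of the two conditional frequencies with the same first residue. -/
lemma delta_sum {a : ℕ} (ha : a = 1 ∨ a = 3) (x : ℝ) (hx : 0 < pi₂ a x) :
    delta a 1 x + delta a 3 x = 1 := by
  obtain ⟨-, r2, r3, -⟩ := relations hinf x
  unfold delta
  rcases ha with rfl | rfl
  · rw [← add_div, r2, div_self hx.ne']
  · rw [← add_div, r3, div_self hx.ne']

lemma pos_of_delta {a b : ℕ} {l : ℝ} (hl : 0 < l) (h : Tendsto (delta a b) atTop (𝓝 l)) :
    ∀ᶠ x in atTop, 0 < pi₂ a x := by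
  filter_upwards [h.eventually_const_lt hl] with x hx
  rcases (Nat.cast_nonneg _ : 0 ≤ pi₂ a x).eq_or_lt with h0 | h0
  · exfalso
    have h0' : pi₂ a x = 0 := h0.symm
    unfold delta at hx
    rw [h0', div_zero] at hx
    exact lt_irrefl _ hx
  · exact h0

/-- From the limits of the two mixed conditional frequencies to everything else. -/
lemma forward {l m : ℝ} (hl : 0 < l) (hm : 0 < m) (h1 : Tendsto (delta 1 3) atTop (𝓝 l))
    (h3 : Tendsto (delta 3 1) atTop (𝓝 m)) :
    Tendsto (fun x => pi₂ 1 x / num x) atTop (𝓝 (m / (l + m))) ∧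
    Tendsto (fun x => changes x / num x) atTop (𝓝 (2 * l * m / (l + m))) ∧
    Tendsto (delta 1 1) atTop (𝓝 (1 - l)) ∧ Tendsto (delta 3 3) atTop (𝓝 (1 - m)) := by
  have hlm : 0 < l + m := add_pos hl hm
  have hst := stationary hinf hlm h1 h3
  have hrel := relations hinf
  have hpos : ∀ᶠ x in atTop, 0 < num x := (num_tendsto hinf).eventually_gt_atTop 0
  have g1 := pos_of_delta hinf hl h1
  have g3 := pos_of_delta hinf hm h3
  refine ⟨hst, ?_, ?_, ?_⟩
  · have hP3 : Tendsto (fun x => 1 - pi₂ 1 x / num x) atTop (𝓝 (1 - m / (l + m))) :=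
      tendsto_const_nhds.sub hst
    have h := (h1.mul hst).add (h3.mul hP3)
    have hv : l * (m / (l + m)) + m * (1 - m / (l + m)) = 2 * l * m / (l + m) := by
      field_simp; ring
    rw [hv] at h
    refine h.congr' ?_
    filter_upwards [hpos, g1, g3] with x hx hx1 hx3
    obtain ⟨r1, -, -, -, r5⟩ := hrel x
    have e3 : 1 - pi₂ 1 x / num x = pi₂ 3 x / num x := by
      field_simp; linarith
    rw [e3, ← r5]
    unfold delta
    field_simp
  · refine (tendsto_const_nhds.sub h1).congr' ?_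
    filter_upwards [g1] with x hx
    linarith [delta_sum hinf (Or.inl rfl) x hx]
  · refine (tendsto_const_nhds.sub h3).congr' ?_
    filter_upwards [g3] with x hx
    linarith [delta_sum hinf (Or.inr rfl) x hx]

/-- If the frequency of the residue `1` has a limit strictly between `0` and `1`, then the limit of
one conditional frequency gives the limit of the proportion of the changes. -/
lemma one_limit {l m : ℝ} (hl : 0 < l) (hm : 0 < m)
    (hP : Tendsto (fun x => pi₂ 1 x / num x) atTop (𝓝 (m / (l + m))))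
    (h : Tendsto (delta 1 1) atTop (𝓝 (1 - l)) ∨ Tendsto (delta 1 3) atTop (𝓝 l) ∨
      Tendsto (delta 3 1) atTop (𝓝 m) ∨ Tendsto (delta 3 3) atTop (𝓝 (1 - m))) :
    Tendsto (fun x => changes x / num x) atTop (𝓝 (2 * l * m / (l + m))) := by
  have hlm : 0 < l + m := add_pos hl hm
  have hrel := relations hinf
  have hN := num_tendsto hinf
  have hpos : ∀ᶠ x in atTop, 0 < num x := hN.eventually_gt_atTop 0
  have hz : Tendsto (fun x => (num x)⁻¹) atTop (𝓝 0) := tendsto_inv_atTop_zero.comp hN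
  have hD : Tendsto (fun x => (pi₂' 1 3 x - pi₂' 3 1 x) / num x) atTop (𝓝 0) := by
    refine squeeze_zero_norm' ?_ hz
    filter_upwards [hpos] with x hx
    obtain ⟨-, -, -, r4, -⟩ := hrel x
    rw [Real.norm_eq_abs, abs_div, abs_of_pos hx, ← one_div]
    exact div_le_div_of_nonneg_right r4 hx.le
  have hr : 0 < m / (l + m) := div_pos hm hlm
  have hr3 : 0 < l / (l + m) := div_pos hl hlm
  have hP3 : Tendsto (fun x => pi₂ 3 x / num x) atTop (𝓝 (l / (l + m))) := by
    have h2 : Tendsto (fun x => 1 - pi₂ 1 x / num x) atTop (𝓝 (1 - m / (l + m))) :=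
      tendsto_const_nhds.sub hP
    rw [show 1 - m / (l + m) = l / (l + m) by field_simp; ring] at h2
    refine h2.congr' ?_
    filter_upwards [hpos] with x hx
    obtain ⟨r1, -⟩ := hrel x
    field_simp
    linarith
  have g1 : ∀ᶠ x in atTop, 0 < pi₂ 1 x := by
    filter_upwards [hP.eventually_const_lt hr, hpos] with x hx hx2
    exact (div_pos_iff_of_pos_right hx2).1 hx
  have g3 : ∀ᶠ x in atTop, 0 < pi₂ 3 x := by
    filter_upwards [hP3.eventually_const_lt hr3, hpos] with x hx hx2
    exact (div_pos_iff_of_pos_right hx2).1 hx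
  have case1 : Tendsto (delta 1 3) atTop (𝓝 l) →
      Tendsto (fun x => changes x / num x) atTop (𝓝 (2 * l * m / (l + m))) := by
    intro h13
    have hq : Tendsto (fun x => pi₂' 1 3 x / num x) atTop (𝓝 (l * (m / (l + m)))) := by
      refine (h13.mul hP).congr' ?_
      filter_upwards [g1, hpos] with x hx hx2
      unfold delta
      field_simp
    have h2 := (hq.add hq).sub hD
    rw [show l * (m / (l + m)) + l * (m / (l + m)) - 0 = 2 * l * m / (l + m) by ring] at h2
    refine h2.congr fun x => ?_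
    obtain ⟨-, -, -, -, r5⟩ := hrel x
    rw [← r5]; ring
  have case3 : Tendsto (delta 3 1) atTop (𝓝 m) →
      Tendsto (fun x => changes x / num x) atTop (𝓝 (2 * l * m / (l + m))) := by
    intro h31
    have hq : Tendsto (fun x => pi₂' 3 1 x / num x) atTop (𝓝 (m * (l / (l + m)))) := by
      refine (h31.mul hP3).congr' ?_
      filter_upwards [g3, hpos] with x hx hx2
      unfold delta
      field_simp
    have h2 := (hq.add hq).add hD
    rw [show m * (l / (l + m)) + m * (l / (l + m)) + 0 = 2 * l * m / (l + m) by ring] at h2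
    refine h2.congr fun x => ?_
    obtain ⟨-, -, -, -, r5⟩ := hrel x
    rw [← r5]; ring
  rcases h with h | h | h | h
  · refine case1 ?_
    have h2 : Tendsto (fun x => 1 - delta 1 1 x) atTop (𝓝 (1 - (1 - l))) :=
      tendsto_const_nhds.sub h
    rw [sub_sub_cancel] at h2
    refine h2.congr' ?_
    filter_upwards [g1] with x hx
    linarith [delta_sum hinf (Or.inl rfl) x hx]
  · exact case1 h
  · exact case3 h
  · refine case3 ?_
    have h2 : Tendsto (fun x => 1 - delta 3 3 x) atTop (𝓝 (1 - (1 - m))) :=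
      tendsto_const_nhds.sub h
    rw [sub_sub_cancel] at h2
    refine h2.congr' ?_
    filter_upwards [g3] with x hx
    linarith [delta_sum hinf (Or.inr rfl) x hx]

omit hinf in
/-- Assume that there are infinitely many twin prime pairs, and let `l, m > 0`. The following are
equivalent (for `l = m = 1/2` the first statement is the assertion of the question):
(1) the four conditional frequencies `δ₂(x;4;1|1)`, `δ₂(x;4;1|3)`, `δ₂(x;4;3|1)`, `δ₂(x;4;3|3)` tend
to `1 - l`, `l`, `m`, `1 - m`;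
(2) `δ₂(x;4;1|3) → l` and `δ₂(x;4;3|1) → m`;
(3) the proportion of the pairs with residue `1` modulo 4 tends to `m / (l + m)` and ONE of the four
limits in (1) holds;
(4) the proportion of the pairs with residue `1` modulo 4 tends to `m / (l + m)`, and the proportion
of the pairs whose residue modulo 4 differs from that of the next pair tends to
`2 l m / (l + m)`. -/
theorem result (hinf : {p | Twin p}.Infinite) (l m : ℝ) (hl : 0 < l) (hm : 0 < m) :
    List.TFAE [
      Tendsto (delta 1 1) atTop (𝓝 (1 - l)) ∧ Tendsto (delta 1 3) atTop (𝓝 l) ∧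
        Tendsto (delta 3 1) atTop (𝓝 m) ∧ Tendsto (delta 3 3) atTop (𝓝 (1 - m)),
      Tendsto (delta 1 3) atTop (𝓝 l) ∧ Tendsto (delta 3 1) atTop (𝓝 m),
      Tendsto (fun x => pi₂ 1 x / num x) atTop (𝓝 (m / (l + m))) ∧
        (Tendsto (delta 1 1) atTop (𝓝 (1 - l)) ∨ Tendsto (delta 1 3) atTop (𝓝 l) ∨
          Tendsto (delta 3 1) atTop (𝓝 m) ∨ Tendsto (delta 3 3) atTop (𝓝 (1 - m))),
      Tendsto (fun x => pi₂ 1 x / num x) atTop (𝓝 (m / (l + m))) ∧
        Tendsto (fun x => changes x / num x) atTop (𝓝 (2 * l * m / (l + m)))] := by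
  have hlm : 0 < l + m := add_pos hl hm
  tfae_have 1 → 2 := fun h => ⟨h.2.1, h.2.2.1⟩
  tfae_have 2 → 3 := fun h => ⟨(forward hinf hl hm h.1 h.2).1, Or.inr (Or.inl h.1)⟩
  tfae_have 3 → 4 := fun h => ⟨h.1, one_limit hinf hl hm h.1 h.2⟩
  tfae_have 4 → 1 := by
    rintro ⟨h1, h2⟩
    obtain ⟨d1, d2, d3, d4⟩ := converse hinf (div_pos hm hlm)
      (by rw [div_lt_one hlm]; linarith) h1 h2
    rw [show 2 * l * m / (l + m) / 2 / (m / (l + m)) = l by field_simp] at d1 d2
    rw [show 2 * l * m / (l + m) / 2 / (1 - m / (l + m)) = m by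
      rw [show 1 - m / (l + m) = l / (l + m) by field_simp; ring]; field_simp] at d3 d4
    exact ⟨d2, d1, d3, d4⟩
  tfae_finish

end Pool.Agent.Results.MP_74f661_nt.ConditionalFrequencies
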